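import Pool.Agent.Lib.MP_a60258_pr.Main

/-!
# Polynomials in a fixed Wiener chaos

`Cha S p P`: the polynomial `P` belongs to the `p`-th chaos over the variables of `S`.
-/

open MeasureTheory ProbabilityTheory MvPolynomial Filter Topology

namespace A602

/-- polynomials in the `p`-th chaos over the variables of `S` -/
def Cha (S : Finset ℕ) : ℕ → R → Prop
  | 0, P => ∃ c, P = C c
  | p + 1, P => (∀ j, Cha S p (pderiv j P)) ∧ (∀ j ∉ S, pderiv j P = 0) ∧
      ∑ i ∈ S, (X i * pderiv i P - pderiv i (pderiv i P)) = ((p : ℝ) + 1) • P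

namespace Cha

variable {S : Finset ℕ} {p : ℕ} {P Q : R}

lemma zero (S : Finset ℕ) : ∀ p, Cha S p 0
  | 0 => ⟨0, by simp⟩
  | p + 1 => ⟨fun j => by rw [map_zero]; exact zero S p, fun j _ => map_zero _, by simp⟩

lemma add : ∀ {p : ℕ} {P Q : R}, Cha S p P → Cha S p Q → Cha S p (P + Q)
  | 0, _, _, ⟨a, ha⟩, ⟨b, hb⟩ => ⟨a + b, by rw [ha, hb, C_add]⟩
  | p + 1, P, Q, hP, hQ => by
      refine ⟨fun j => ?_, fun j hj => ?_, ?_⟩
      · rw [map_add]; exact add (hP.1 j) (hQ.1 j)
      · rw [map_add, hP.2.1 j hj, hQ.2.1 j hj, add_zero]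
      · rw [smul_add, ← hP.2.2, ← hQ.2.2, ← Finset.sum_add_distrib]
        refine Finset.sum_congr rfl fun i _ => ?_
        simp only [map_add]
        ring

lemma smul : ∀ {p : ℕ} {P : R} (r : ℝ), Cha S p P → Cha S p (r • P)
  | 0, _, r, ⟨a, ha⟩ => ⟨r * a, by rw [ha, smul_eq_C_mul, C_mul]⟩
  | p + 1, P, r, hP => by
      refine ⟨fun j => ?_, fun j hj => ?_, ?_⟩
      · rw [Derivation.map_smul]; exact smul r (hP.1 j)
      · rw [Derivation.map_smul, hP.2.1 j hj, smul_zero]
      · rw [smul_comm, ← hP.2.2, Finset.smul_sum]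
        refine Finset.sum_congr rfl fun i _ => ?_
        simp only [Derivation.map_smul, smul_sub, mul_smul_comm]

lemma sub (hP : Cha S p P) (hQ : Cha S p Q) : Cha S p (P - Q) := by
  have h := hP.add (hQ.smul (-1))
  rwa [neg_one_smul, ← sub_eq_add_neg] at h

lemma sum {κ : Type*} (s : Finset κ) {P : κ → R} (h : ∀ k ∈ s, Cha S p (P k)) :
    Cha S p (∑ k ∈ s, P k) := by
  classical
  induction s using Finset.induction_on with
  | empty => simpa using zero S p
  | insert a s ha ih =>
    rw [Finset.sum_insert ha]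
    exact (h a (Finset.mem_insert_self _ _)).add (ih fun k hk => h k (Finset.mem_insert_of_mem hk))

lemma pd : ∀ {p : ℕ} {P : R} (j : ℕ), Cha S p P → Cha S (p - 1) (pderiv j P)
  | 0, _, j, ⟨a, ha⟩ => by rw [ha, pderiv_C]; exact zero S 0
  | p + 1, P, j, hP => hP.1 j

lemma out (hP : Cha S p P) {j : ℕ} (hj : j ∉ S) : pderiv j P = 0 := by
  match p, hP with
  | 0, ⟨a, ha⟩ => rw [ha, pderiv_C]
  | p + 1, hP => exact hP.2.1 j hj

lemma mono {S' : Finset ℕ} (hS : S ⊆ S') : ∀ {p : ℕ} {P : R}, Cha S p P → Cha S' p P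
  | 0, _, h => h
  | p + 1, P, hP => by
      refine ⟨fun j => mono hS (hP.1 j), fun j hj => hP.2.1 j fun h => hj (hS h), ?_⟩
      rw [← hP.2.2]
      symm
      refine Finset.sum_subset hS fun i _ hi => ?_
      rw [hP.2.1 i hi]
      simp

/-- integration by parts -/
lemma ibp (hP : Cha S p P) (G : R) :
    (p : ℝ) * E (P * G) = ∑ i ∈ S, E (pderiv i P * pderiv i G) := by
  match p, hP with
  | 0, ⟨a, ha⟩ => simp [ha]
  | p + 1, hP =>
    have h1 : ((p + 1 : ℕ) : ℝ) * E (P * G) = E ((((p : ℝ) + 1) • P) * G) := by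
      rw [smul_mul_assoc, map_smul, smul_eq_mul]; push_cast; ring
    rw [h1, ← hP.2.2, Finset.sum_mul, map_sum]
    refine Finset.sum_congr rfl fun i _ => ?_
    rw [sub_mul, map_sub, mul_assoc, E_X_mul, Derivation.leibniz, map_add]
    simp only [smul_eq_mul]
    rw [mul_comm G]
    ring

end Cha

/-! ### Hermite products -/

/-- the Hermite polynomial in the variable `i` -/
noncomputable def He (n i : ℕ) : R := Polynomial.aeval (X i) (Polynomial.hermite n)

lemma derivative_hermite (n : ℕ) : Polynomial.derivative (Polynomial.hermite n)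
    = (n : Polynomial ℤ) * Polynomial.hermite (n - 1) := by
  induction n with
  | zero => simp
  | succ n ih =>
    rw [Polynomial.hermite_succ, map_sub, Polynomial.derivative_mul, Polynomial.derivative_X, ih]
    rcases n with _ | n
    · simp
    · have h2 : Polynomial.derivative (((n + 1 : ℕ) : Polynomial ℤ) * Polynomial.hermite (n + 1 - 1))
          = ((n + 1 : ℕ) : Polynomial ℤ) * Polynomial.derivative (Polynomial.hermite n) := by
        rw [Polynomial.derivative_mul, Polynomial.derivative_natCast, zero_mul, zero_add,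
          Nat.add_sub_cancel]
      rw [h2]
      have h3 := Polynomial.hermite_succ n
      rw [Nat.add_sub_cancel, Nat.add_sub_cancel]
      rw [show Polynomial.derivative (Polynomial.hermite n)
        = Polynomial.X * Polynomial.hermite n - Polynomial.hermite (n + 1) by rw [h3]; ring]
      push_cast
      ring

lemma pderiv_aeval (f : Polynomial ℤ) (x : R) (j : ℕ) :
    pderiv j (Polynomial.aeval x f) = Polynomial.aeval x (Polynomial.derivative f) * pderiv j x :=
  ((pderiv j : Derivation ℝ R R).restrictScalars ℤ).map_aeval f x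

lemma pderiv_He (n i j : ℕ) : pderiv j (He n i) = if i = j then (n : R) * He (n - 1) i else 0 := by
  unfold He
  rw [pderiv_aeval, derivative_hermite]
  split_ifs with h
  · subst h
    rw [pderiv_X_self, mul_one, map_mul, map_natCast]
  · rw [pderiv_X_of_ne h, mul_zero]

lemma He_succ (n i : ℕ) : He (n + 1) i = X i * He n i - pderiv i (He n i) := by
  unfold He
  rw [pderiv_aeval, Polynomial.hermite_succ, pderiv_X_self, mul_one, map_sub,
    map_mul, Polynomial.aeval_X]

lemma He_zero (i : ℕ) : He 0 i = 1 := by simp [He]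

lemma He_ou (n i : ℕ) : X i * pderiv i (He n i) - pderiv i (pderiv i (He n i)) = (n : R) * He n i := by
  rcases n with _ | n
  · simp [He_zero]
  · have h1 : pderiv i (He (n + 1) i) = ((n + 1 : ℕ) : R) * He n i := by
      rw [pderiv_He, if_pos rfl, Nat.add_sub_cancel]
    rw [h1]
    have h2 : pderiv i (((n + 1 : ℕ) : R) * He n i) = ((n + 1 : ℕ) : R) * pderiv i (He n i) := by
      rw [Derivation.leibniz]
      simp
    rw [h2, He_succ]
    ring

/-- products of Hermite polynomials -/
noncomputable def hermS (S : Finset ℕ) (α : ℕ → ℕ) : R := ∏ i ∈ S, He (α i) i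

lemma pderiv_prod_zero {T : Finset ℕ} {f : ℕ → R} {j : ℕ} (h : ∀ i ∈ T, pderiv j (f i) = 0) :
    pderiv j (∏ i ∈ T, f i) = 0 := by
  refine Finset.prod_induction f (fun Q => pderiv j Q = 0) ?_ ?_ h
  · intro a b ha hb
    rw [Derivation.leibniz, ha, hb, smul_zero, smul_zero, add_zero]
  · simp

lemma pderiv_hermS {S : Finset ℕ} (α : ℕ → ℕ) {j : ℕ} (hj : j ∈ S) :
    pderiv j (hermS S α) = (α j : R) * hermS S (Function.update α j (α j - 1)) := by
  classical
  unfold hermS
  rw [← Finset.mul_prod_erase S _ hj, ← Finset.mul_prod_erase S _ hj]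
  have h1 : pderiv j (∏ i ∈ S.erase j, He (α i) i) = 0 :=
    pderiv_prod_zero fun i hi => by
      rw [pderiv_He, if_neg (Finset.ne_of_mem_erase hi)]
  have h2 : ∏ i ∈ S.erase j, He (Function.update α j (α j - 1) i) i
      = ∏ i ∈ S.erase j, He (α i) i := by
    refine Finset.prod_congr rfl fun i hi => ?_
    rw [Function.update_of_ne (Finset.ne_of_mem_erase hi)]
  rw [Derivation.leibniz, h1, h2, pderiv_He, if_pos rfl, Function.update_self]
  simp only [smul_eq_mul]
  ring

lemma ou_hermS {S : Finset ℕ} (α : ℕ → ℕ) {j : ℕ} (hj : j ∈ S) :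
    X j * pderiv j (hermS S α) - pderiv j (pderiv j (hermS S α)) = (α j : R) * hermS S α := by
  classical
  have h1 : pderiv j (∏ i ∈ S.erase j, He (α i) i) = 0 :=
    pderiv_prod_zero fun i hi => by
      rw [pderiv_He, if_neg (Finset.ne_of_mem_erase hi)]
  have h2 : hermS S α = He (α j) j * ∏ i ∈ S.erase j, He (α i) i :=
    (Finset.mul_prod_erase S _ hj).symm
  set r := ∏ i ∈ S.erase j, He (α i) i with hr
  have h3 : ∀ a : R, pderiv j (a * r) = pderiv j a * r := fun a => by
    rw [Derivation.leibniz, h1]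
    simp only [smul_eq_mul]
    ring
  rw [h2, h3, h3]
  have h4 := He_ou (α j) j
  linear_combination r * h4

lemma cha_hermS {S : Finset ℕ} : ∀ (p : ℕ) (α : ℕ → ℕ), ∑ i ∈ S, α i = p → Cha S p (hermS S α)
  | 0, α, h => by
      have h0 : ∀ i ∈ S, α i = 0 := fun i hi => (Finset.sum_eq_zero_iff.mp h) i hi
      refine ⟨1, ?_⟩
      rw [C_1]
      exact Finset.prod_eq_one fun i hi => by rw [h0 i hi, He_zero]
  | p + 1, α, h => by
      classical
      refine ⟨fun j => ?_, fun j hj => ?_, ?_⟩
      · by_cases hj : j ∈ S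
        · rw [pderiv_hermS α hj]
          rcases Nat.eq_zero_or_pos (α j) with h0 | h0
          · rw [h0]; simpa using Cha.zero S p
          · have h1 : ∑ i ∈ S, Function.update α j (α j - 1) i = p := by
              rw [← Finset.add_sum_erase S _ hj, Function.update_self]
              have h2 : ∑ i ∈ S.erase j, Function.update α j (α j - 1) i
                  = ∑ i ∈ S.erase j, α i := Finset.sum_congr rfl fun i hi => by
                rw [Function.update_of_ne (Finset.ne_of_mem_erase hi)]
              rw [h2]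
              have h3 := Finset.add_sum_erase S α hj
              omega
            have h4 := (cha_hermS p _ h1).smul (α j : ℝ)
            rwa [smul_eq_C_mul, map_natCast] at h4
        · have h0 : pderiv j (hermS S α) = 0 := pderiv_prod_zero fun i hi => by
            rw [pderiv_He, if_neg (fun h' : i = j => hj (h' ▸ hi))]
          rw [h0]
          exact Cha.zero S p
      · exact pderiv_prod_zero fun i hi => by
          rw [pderiv_He, if_neg (fun h' : i = j => hj (h' ▸ hi))]
      · rw [Finset.sum_congr rfl fun i hi => ou_hermS α hi, ← Finset.sum_mul, ← Nat.cast_sum, h,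
          smul_eq_C_mul, map_add, map_natCast, C_1]
        push_cast
        ring

/-- the polynomial in the statement -/
noncomputable def chp (s : Finset (ℕ →₀ ℕ)) (c : (ℕ →₀ ℕ) → ℝ) : R :=
  ∑ α ∈ s, c α • α.prod (fun i k => He k i)

lemma eval_He (ω : ℕ → ℝ) (n i : ℕ) :
    eval ω (He n i) = Polynomial.aeval (ω i) (Polynomial.hermite n) := by
  unfold He
  rw [Polynomial.aeval_def, Polynomial.aeval_def, Polynomial.hom_eval₂]
  congr 1
  · exact RingHom.ext_int _ _
  · simp

lemma eval_chp (s : Finset (ℕ →₀ ℕ)) (c : (ℕ →₀ ℕ) → ℝ) (ω : ℕ → ℝ) :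
    eval ω (chp s c)
      = ∑ α ∈ s, c α * α.prod (fun i k => Polynomial.aeval (ω i) (Polynomial.hermite k)) := by
  unfold chp
  rw [map_sum]
  refine Finset.sum_congr rfl fun α _ => ?_
  rw [smul_eval, Finsupp.prod, Finsupp.prod, map_prod]
  simp only [eval_He]

lemma cha_chp {p : ℕ} {s : Finset (ℕ →₀ ℕ)} (hs : ∀ α ∈ s, (α.sum fun _ k => k) = p)
    (c : (ℕ →₀ ℕ) → ℝ) : ∃ S, Cha S p (chp s c) := by
  classical
  refine ⟨s.biUnion fun α => α.support, ?_⟩
  refine Cha.sum s fun α hα => ?_
  refine Cha.smul _ ?_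
  have h1 : Cha α.support p (hermS α.support α) := cha_hermS p α (hs α hα)
  exact h1.mono (Finset.subset_biUnion_of_mem (fun α : ℕ →₀ ℕ => α.support) hα)

/-! ### Hypercontractivity -/

lemma young (u g t : ℝ) (hu : 0 ≤ u) (hg : 0 ≤ g) (ht : 0 < t) :
    3 * t ^ 2 * (u ^ 2 * g) ≤ 2 * t ^ 3 * u ^ 3 + g ^ 3 := by
  nlinarith [mul_nonneg (add_nonneg (mul_nonneg (by norm_num : (0:ℝ) ≤ 2) (mul_nonneg ht.le hu)) hg)
    (sq_nonneg (t * u - g))]

lemma E_sum_sq {κ : Type*} (s : Finset κ) (P : κ → R) : E (∑ a ∈ s, P a ^ 2) = ∑ a ∈ s, E (P a ^ 2) :=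
  map_sum _ _ _

theorem hyper (S : Finset ℕ) : ∀ (p : ℕ) (κ : Type) [Fintype κ] (P : κ → R),
    (∀ a, Cha S p (P a)) → E ((∑ a, P a ^ 2) ^ 3) ≤ 125 ^ p * E (∑ a, P a ^ 2) ^ 3
  | 0, κ, _, P, hP => by
      choose c hc using hP
      have h1 : ∑ a, P a ^ 2 = C (∑ a, c a ^ 2) := by
        rw [map_sum]
        exact Finset.sum_congr rfl fun a _ => by rw [hc, C_pow]
      rw [h1, ← C_pow, E_C, E_C]
      simp
  | p + 1, κ, _, P, hP => by
      classical
      set U : R := ∑ a, P a ^ 2 with hU
      set G : R := ∑ b : κ × S, pderiv (b.2 : ℕ) (P b.1) ^ 2 with hG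
      have ih : E (G ^ 3) ≤ 125 ^ p * E G ^ 3 :=
        hyper S p (κ × S) (fun b => pderiv (b.2 : ℕ) (P b.1)) fun b => (hP b.1).1 _
      have hG' : G = ∑ a, ∑ j ∈ S, pderiv j (P a) ^ 2 := by
        rw [hG, Fintype.sum_prod_type]
        refine Finset.sum_congr rfl fun a _ => ?_
        exact Finset.sum_coe_sort S (fun j => pderiv j (P a) ^ 2)
      have hEG : E G = ((p : ℝ) + 1) * E U := by
        rw [hG', hU, map_sum, map_sum, Finset.mul_sum]
        refine Finset.sum_congr rfl fun a _ => ?_
        have h1 := (hP a).ibp (P a)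
        rw [map_sum, pow_two]
        push_cast at h1
        rw [h1]
        exact Finset.sum_congr rfl fun j _ => by rw [pow_two]
      have hdU : ∀ j, pderiv j U = 2 * ∑ a, P a * pderiv j (P a) := by
        intro j
        rw [hU, map_sum, Finset.mul_sum]
        refine Finset.sum_congr rfl fun a _ => ?_
        rw [pow_two, Derivation.leibniz]
        simp only [smul_eq_mul]
        ring
      have hmain : ((p : ℝ) + 1) * E (U ^ 3)
          = E (U ^ 2 * G + U * ∑ j ∈ S, pderiv j U ^ 2) := by
        have h1 : U ^ 3 = ∑ a, P a * (P a * U ^ 2) := by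
          have : U ^ 3 = U * U ^ 2 := by ring
          rw [this]
          conv_lhs => rw [hU]
          rw [Finset.sum_mul]
          exact Finset.sum_congr rfl fun a _ => by ring
        rw [h1, map_sum, Finset.mul_sum]
        have h2 : ∀ a, ((p : ℝ) + 1) * E (P a * (P a * U ^ 2))
            = E (∑ j ∈ S, (pderiv j (P a) ^ 2 * U ^ 2
              + 2 * (P a * pderiv j (P a)) * (U * pderiv j U))) := by
          intro a
          have h3 := (hP a).ibp (P a * U ^ 2)
          push_cast at h3
          rw [h3, map_sum]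
          refine Finset.sum_congr rfl fun j _ => ?_
          congr 1
          rw [Derivation.leibniz, Derivation.leibniz_pow]
          simp only [smul_eq_mul, nsmul_eq_mul]
          push_cast
          ring
        rw [Finset.sum_congr rfl (fun (a : κ) (_ : a ∈ Finset.univ) => h2 a), ← map_sum E]
        congr 1
        have h4 : ∑ a, ∑ j ∈ S, pderiv j (P a) ^ 2 * U ^ 2 = U ^ 2 * G := by
          rw [hG', Finset.mul_sum]
          refine Finset.sum_congr rfl fun a _ => ?_
          rw [Finset.mul_sum]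
          exact Finset.sum_congr rfl fun j _ => mul_comm _ _
        have h5 : ∑ a, ∑ j ∈ S, 2 * (P a * pderiv j (P a)) * (U * pderiv j U)
            = U * ∑ j ∈ S, pderiv j U ^ 2 := by
          rw [Finset.sum_comm, Finset.mul_sum]
          refine Finset.sum_congr rfl fun j _ => ?_
          rw [← Finset.sum_mul, ← Finset.mul_sum, ← hdU]
          ring
        simp only [Finset.sum_add_distrib]
        rw [h4, h5]
      have hle : E (U ^ 2 * G + U * ∑ j ∈ S, pderiv j U ^ 2) ≤ E ((5 : ℝ) • (U ^ 2 * G)) := by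
        refine E_mono fun ω => ?_
        have e1 : eval ω U = ∑ a, (eval ω (P a)) ^ 2 := by rw [hU]; simp
        have e2 : eval ω G = ∑ a, ∑ j ∈ S, (eval ω (pderiv j (P a))) ^ 2 := by rw [hG']; simp
        have hU0 : 0 ≤ eval ω U := by rw [e1]; positivity
        have h3 : ∀ j ∈ S, (eval ω (pderiv j U)) ^ 2
            ≤ 4 * (eval ω U * ∑ a, (eval ω (pderiv j (P a))) ^ 2) := by
          intro j _
          rw [hdU, map_mul, map_ofNat, map_sum, e1]
          simp only [map_mul]
          have := Finset.sum_mul_sq_le_sq_mul_sq Finset.univ (fun a => eval ω (P a))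
            (fun a => eval ω (pderiv j (P a)))
          nlinarith
        have h4 : ∑ j ∈ S, (eval ω (pderiv j U)) ^ 2 ≤ 4 * (eval ω U * eval ω G) := by
          refine (Finset.sum_le_sum h3).trans (le_of_eq ?_)
          rw [← Finset.mul_sum, ← Finset.mul_sum, e2, Finset.sum_comm]
        simp only [map_add, map_mul, map_pow, map_sum, smul_eval]
        nlinarith [mul_le_mul_of_nonneg_left h4 hU0]
      have ht : (0 : ℝ) < ((p : ℝ) + 1) / 5 := by positivity
      have hY : E ((3 * (((p : ℝ) + 1) / 5) ^ 2) • (U ^ 2 * G))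
          ≤ E ((2 * (((p : ℝ) + 1) / 5) ^ 3) • U ^ 3 + G ^ 3) := by
        refine E_mono fun ω => ?_
        simp only [map_add, map_mul, map_pow, smul_eval]
        refine young _ _ _ ?_ ?_ ht
        · rw [hU]; simp only [map_sum, map_pow]; positivity
        · rw [hG]; simp only [map_sum, map_pow]; positivity
      rw [map_smul, smul_eq_mul] at hle
      rw [map_add, map_smul, map_smul, smul_eq_mul, smul_eq_mul] at hY
      rw [hEG] at ih
      have hp0 : (0 : ℝ) < (p : ℝ) + 1 := by positivity
      set q : ℝ := (p : ℝ) + 1 with hq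
      have h5 : q ^ 3 * E (U ^ 3) ≤ 125 * E (G ^ 3) := by
        have h6 : q * E (U ^ 3) ≤ 5 * E (U ^ 2 * G) := by rw [hmain]; exact hle
        have h7 : q ^ 2 * (q * E (U ^ 3)) ≤ q ^ 2 * (5 * E (U ^ 2 * G)) :=
          mul_le_mul_of_nonneg_left h6 (by positivity)
        nlinarith
      have h8 : q ^ 3 * E (U ^ 3) ≤ q ^ 3 * (125 ^ (p + 1) * E U ^ 3) := by
        calc q ^ 3 * E (U ^ 3) ≤ 125 * E (G ^ 3) := h5
          _ ≤ 125 * (125 ^ p * (q * E U) ^ 3) := by linarith
          _ = _ := by ring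
      exact le_of_mul_le_mul_left h8 (by positivity)

lemma Cha.six_le {S : Finset ℕ} {p : ℕ} {P : R} (hP : Cha S p P) :
    E (P ^ 6) ≤ 125 ^ p * E (P ^ 2) ^ 3 := by
  have h := hyper S p Unit (fun _ => P) (fun _ => hP)
  simp only [Finset.univ_unique, Finset.sum_singleton] at h
  rw [← pow_mul] at h
  exact h

end A602
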