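import Pool.Agent.Lib.MP_a60258_c3.Sos

/-!
# A checker for certificates of positivity of the sixth cumulant
-/

open MeasureTheory ProbabilityTheory MvPolynomial Filter Topology

namespace A602

/-- the graph with the number `i` -/
def gr (tab : List (List Ed)) (i : ℕ) : List Ed := tab.getD i []

/-- an application of the expansion rule -/
structure Rule where
  /-- the graph -/
  i : ℕ
  /-- the vertex -/
  v : Fin 6
  /-- the multiplier -/
  m : ℤ
  /-- neighbour, relabelling, new graph -/
  e : List (Fin 6 × List Ed × ℕ)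

/-- a sum of squares -/
structure Sq where
  /-- the weight -/
  w : ℕ
  /-- number of open legs -/
  k : ℕ
  /-- coefficient, open legs, internal edges -/
  f : List (ℤ × List (Fin 3) × List (Fin 3 × Fin 3))
  /-- relabelling and number of the glued graphs -/
  g : List (List (List Ed × ℕ))

def okRule (tab : List (List Ed)) (p : ℕ) (r : Rule) : Bool :=
  decide (r.i < tab.length)
    && (r.e.map fun x => x.1) == (List.finRange 6).filter
        (fun w => !(w == r.v) && !(rem (gr tab r.i) (fun _ => p) w == 0))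
    && r.e.all fun x => iso x.2.1 ((r.v, x.1) :: gr tab r.i) (gr tab x.2.2)
        && decide (x.2.2 < tab.length)

def applyRule (tab : List (List Ed)) (p : ℕ) (r : Rule) (v : List ℤ) : List ℤ :=
  r.e.foldl (fun v x => addAt x.2.2 r.m v)
    (addAt r.i (-(r.m * (rem (gr tab r.i) (fun _ => p) r.v : ℤ))) v)

def okSq (tab : List (List Ed)) (p : ℕ) (s : Sq) : Bool :=
  (s.f.all fun x => x.2.1.length == s.k)
    && s.f.length == s.g.length
    && (s.f.zip s.g).all fun x => x.2.length == s.f.length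
      && (s.f.zip x.2).all fun y =>
        iso y.2.1 (glue x.1.2.1 y.1.2.1 x.1.2.2 y.1.2.2) (gr tab y.2.2)
          && decide (y.2.2 < tab.length)
          && (List.finRange 6).all fun u =>
            rem (glue x.1.2.1 y.1.2.1 x.1.2.2 y.1.2.2) (fun _ => p) u == 0

def applySq (s : Sq) (v : List ℤ) : List ℤ :=
  (s.f.zip s.g).foldl (fun v x => (s.f.zip x.2).foldl
    (fun v y => addAt y.2.2 (-((s.w : ℤ) * (x.1.1 * y.1.1))) v) v) v

section Sound

variable {S : Finset ℕ} {p : ℕ} {P : R} {tab : List (List Ed)}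

omit S p P tab in
lemma map_zip_fst {α β γ : Type} (l : List α) (l' : List β) (h : l.length = l'.length)
    (F : α → γ) : (l.zip l').map (fun x => F x.1) = l.map F := by
  conv_rhs => rw [← List.map_fst_zip (l₁ := l) (l₂ := l') (le_of_eq h)]
  rw [List.map_map]
  rfl

/-- the graph sums of the table -/
noncomputable def xv (S : Finset ℕ) (P : R) (tab : List (List Ed)) (i : ℕ) : ℝ := W S P (gr tab i)

lemma foldl_addAt {α : Type} (x : ℕ → ℝ) (i : α → ℕ) (a : α → ℤ) :
    ∀ (l : List α) (v : List ℤ), (∀ y ∈ l, i y < v.length) →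
    dot x 0 (l.foldl (fun v y => addAt (i y) (a y) v) v)
      = dot x 0 v + (l.map fun y => (a y : ℝ) * x (i y)).sum
      ∧ (l.foldl (fun v y => addAt (i y) (a y) v) v).length = v.length
  | [], v, _ => by simp
  | y :: l, v, h => by
      have h1 := h y List.mem_cons_self
      have h2 := foldl_addAt x i a l (addAt (i y) (a y) v) (fun z hz => by
        rw [length_addAt]; exact h z (List.mem_cons_of_mem _ hz))
      rw [List.foldl_cons]
      refine ⟨?_, by rw [h2.2, length_addAt]⟩
      rw [h2.1, dot_addAt x v _ 0 _ h1, List.map_cons, List.sum_cons, zero_add]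
      ring

lemma applyRule_sound (hP : Cha S p P) (r : Rule) (v : List ℤ) (hv : v.length = tab.length)
    (h : okRule tab p r = true) :
    dot (xv S P tab) 0 (applyRule tab p r v) = dot (xv S P tab) 0 v
      ∧ (applyRule tab p r v).length = tab.length := by
  unfold okRule at h
  simp only [Bool.and_eq_true, decide_eq_true_eq, beq_iff_eq, List.all_eq_true] at h
  obtain ⟨⟨h1, h2⟩, h3⟩ := h
  unfold applyRule
  have hf := foldl_addAt (xv S P tab) (fun x : Fin 6 × List Ed × ℕ => x.2.2) (fun _ => r.m) r.e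
    (addAt r.i (-(r.m * (rem (gr tab r.i) (fun _ => p) r.v : ℤ))) v)
    (fun y hy => by rw [length_addAt, hv]; exact (h3 y hy).2)
  refine ⟨?_, by rw [hf.2, length_addAt, hv]⟩
  rw [hf.1, dot_addAt _ _ _ _ _ (by rw [hv]; exact h1), zero_add]
  have hrule := val_rule (S := S) (gr tab r.i) (d := fun _ => p) (Q := fun _ => P) (fun _ => hP) r.v
  have hs : ∑ w ∈ Finset.univ.erase r.v, val S ((r.v, w) :: gr tab r.i) (fun _ => P)
      = (r.e.map fun y => xv S P tab y.2.2).sum := by
    have e1 : ∑ w ∈ Finset.univ.erase r.v, val S ((r.v, w) :: gr tab r.i) (fun _ => P)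
        = ∑ w ∈ Finset.univ.filter
            (fun w => !(w == r.v) && !(rem (gr tab r.i) (fun _ => p) w == 0)),
            val S ((r.v, w) :: gr tab r.i) (fun _ => P) := by
      symm
      refine Finset.sum_subset_zero_on_sdiff ?_ ?_ fun _ _ => rfl
      · intro w hw
        simp only [Finset.mem_filter, Finset.mem_univ, true_and, Bool.and_eq_true,
          Bool.not_eq_true', beq_eq_false_iff_ne, ne_eq] at hw
        exact Finset.mem_erase.mpr ⟨hw.1, Finset.mem_univ _⟩
      · intro w hw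
        simp only [Finset.mem_sdiff, Finset.mem_erase, Finset.mem_univ, and_true,
          Finset.mem_filter, true_and, Bool.and_eq_true, Bool.not_eq_true', beq_eq_false_iff_ne,
          ne_eq, not_and, not_not] at hw
        exact val_full _ (fun _ => hP) _ _ (hw.2 hw.1)
    rw [e1]
    have e2 : (Finset.univ.filter
            (fun w => (!(w == r.v) && !(rem (gr tab r.i) (fun _ => p) w == 0)) = true)).toList.Perm
            (r.e.map fun x => x.1) := by
      rw [h2]
      refine (List.perm_ext_iff_of_nodup (Finset.nodup_toList _)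
        ((List.nodup_finRange 6).filter _)).mpr fun w => ?_
      simp
    rw [← Finset.sum_map_toList, (e2.map _).sum_eq, List.map_map]
    congr 1
    refine List.map_congr_left fun y hy => ?_
    exact W_iso (h3 y hy).1
  rw [hs] at hrule
  have e3 : (r.e.map fun y => ((r.m : ℤ) : ℝ) * xv S P tab y.2.2).sum
      = (r.m : ℝ) * (r.e.map fun y => xv S P tab y.2.2).sum := List.sum_map_mul_left ..
  rw [e3, ← hrule]
  have e4 : xv S P tab r.i = val S (gr tab r.i) (fun _ => P) := rfl
  rw [e4]
  push_cast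
  ring

lemma applySq_sound (hP : Cha S p P) (s : Sq) (v : List ℤ) (hv : v.length = tab.length)
    (h : okSq tab p s = true) :
    dot (xv S P tab) 0 (applySq s v) ≤ dot (xv S P tab) 0 v
      ∧ (applySq s v).length = tab.length := by
  unfold okSq at h
  simp only [Bool.and_eq_true, decide_eq_true_eq, beq_iff_eq, List.all_eq_true] at h
  obtain ⟨⟨h1, h2⟩, h3⟩ := h
  -- the inner fold
  have inner : ∀ (x : (ℤ × List (Fin 3) × List (Fin 3 × Fin 3)) × List (List Ed × ℕ)),
      x ∈ s.f.zip s.g → ∀ u : List ℤ, u.length = tab.length →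
      dot (xv S P tab) 0 ((s.f.zip x.2).foldl
        (fun v y => addAt y.2.2 (-((s.w : ℤ) * (x.1.1 * y.1.1))) v) u)
      = dot (xv S P tab) 0 u - (s.w : ℝ) * ((s.f.map fun y => (x.1.1 : ℝ) * (y.1 : ℝ)
          * pval S (glue x.1.2.1 y.2.1 x.1.2.2 y.2.2) (fun _ => P))).sum
      ∧ ((s.f.zip x.2).foldl
        (fun v y => addAt y.2.2 (-((s.w : ℤ) * (x.1.1 * y.1.1))) v) u).length = tab.length := by
    intro x hx u hu
    obtain ⟨h4, h5⟩ := h3 x hx
    have hf := foldl_addAt (xv S P tab)
      (fun y : (ℤ × List (Fin 3) × List (Fin 3 × Fin 3)) × List Ed × ℕ => y.2.2)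
      (fun y => (-((s.w : ℤ) * (x.1.1 * y.1.1)))) (s.f.zip x.2) u
      (fun y hy => by rw [hu]; exact (h5 y hy).1.2)
    refine ⟨?_, by rw [hf.2, hu]⟩
    rw [hf.1]
    have e1 : s.f.map (fun y => (x.1.1 : ℝ) * (y.1 : ℝ)
          * pval S (glue x.1.2.1 y.2.1 x.1.2.2 y.2.2) (fun _ => P))
        = (s.f.zip x.2).map (fun y => (x.1.1 : ℝ) * (y.1.1 : ℝ)
          * pval S (glue x.1.2.1 y.1.2.1 x.1.2.2 y.1.2.2) (fun _ => P)) := by
      conv_lhs => rw [← List.map_fst_zip (l₁ := s.f) (l₂ := x.2) (by rw [h4])]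
      rw [List.map_map]
      rfl
    rw [e1]
    have e2 : ((s.f.zip x.2).map (fun y => ((-((s.w : ℤ) * (x.1.1 * y.1.1)) : ℤ) : ℝ)
        * xv S P tab y.2.2)).sum
        = -(s.w : ℝ) * ((s.f.zip x.2).map (fun y => (x.1.1 : ℝ) * (y.1.1 : ℝ)
          * pval S (glue x.1.2.1 y.1.2.1 x.1.2.2 y.1.2.2) (fun _ => P))).sum := by
      rw [← List.sum_map_mul_left]
      congr 1
      refine List.map_congr_left fun y hy => ?_
      obtain ⟨⟨h6, _⟩, h7⟩ := h5 y hy
      have h8 : xv S P tab y.2.2
          = pval S (glue x.1.2.1 y.1.2.1 x.1.2.2 y.1.2.2) (fun _ => P) := by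
        unfold xv
        rw [← W_iso (S := S) (P := P) h6]
        exact val_eq_pval _ (d := fun _ => p) (fun _ => hP) fun u => h7 u (List.mem_finRange u)
      rw [h8]
      push_cast
      ring
    rw [e2]
    ring
  -- the outer fold
  have outer : ∀ (l : List ((ℤ × List (Fin 3) × List (Fin 3 × Fin 3)) × List (List Ed × ℕ))),
      (∀ x ∈ l, x ∈ s.f.zip s.g) → ∀ u : List ℤ, u.length = tab.length →
      dot (xv S P tab) 0 (l.foldl (fun v x => (s.f.zip x.2).foldl
        (fun v y => addAt y.2.2 (-((s.w : ℤ) * (x.1.1 * y.1.1))) v) v) u)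
      = dot (xv S P tab) 0 u - (s.w : ℝ) * ((l.map fun x => (s.f.map fun y => (x.1.1 : ℝ)
          * (y.1 : ℝ) * pval S (glue x.1.2.1 y.2.1 x.1.2.2 y.2.2) (fun _ => P)).sum)).sum
      ∧ (l.foldl (fun v x => (s.f.zip x.2).foldl
        (fun v y => addAt y.2.2 (-((s.w : ℤ) * (x.1.1 * y.1.1))) v) v) u).length = tab.length := by
    intro l
    induction l with
    | nil => intro _ u hu; simp [hu]
    | cons x l ih =>
      intro hl u hu
      obtain ⟨i1, i2⟩ := inner x (hl x List.mem_cons_self) u hu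
      obtain ⟨i3, i4⟩ := ih (fun y hy => hl y (List.mem_cons_of_mem _ hy)) _ i2
      refine ⟨?_, ?_⟩
      · rw [List.foldl_cons, i3, i1, List.map_cons, List.sum_cons]
        ring
      · rw [List.foldl_cons]
        exact i4
  obtain ⟨o1, o2⟩ := outer (s.f.zip s.g) (fun x hx => hx) v hv
  refine ⟨?_, o2⟩
  unfold applySq
  rw [o1]
  have e1 : (s.f.zip s.g).map (fun x => (s.f.map fun y => (x.1.1 : ℝ)
          * (y.1 : ℝ) * pval S (glue x.1.2.1 y.2.1 x.1.2.2 y.2.2) (fun _ => P)).sum)
        = s.f.map (fun x => (s.f.map fun y => (x.1 : ℝ)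
          * (y.1 : ℝ) * pval S (glue x.2.1 y.2.1 x.2.2 y.2.2) (fun _ => P)).sum) := by
    exact map_zip_fst s.f s.g h2 (fun x => (s.f.map fun y => (x.1 : ℝ)
          * (y.1 : ℝ) * pval S (glue x.2.1 y.2.1 x.2.2 y.2.2) (fun _ => P)).sum)
  rw [e1]
  have h6 := sos_pval (S := S) (ι := Fin s.f.length) (fun i => (s.f.get i).2.2)
    (fun i => ((s.f.get i).1 : ℝ)) s.k (fun i => (s.f.get i).2.1) (fun _ _ => P)
    (fun i => h1 _ (List.get_mem _ _))
  have h7 : ∀ g : (ℤ × List (Fin 3) × List (Fin 3 × Fin 3)) → ℝ,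
      ∑ i : Fin s.f.length, g (s.f.get i) = (s.f.map g).sum := fun g => by
    rw [← List.sum_ofFn]
    congr 1
    conv_rhs => rw [← List.ofFn_get s.f]
    rw [List.map_ofFn]
    rfl
  have h8 : app (fun _ => P) (fun _ => P) = fun _ => P := by
    refine fin6_ext (fun u => ?_) fun u => ?_
    · rw [app_inl]
    · rw [app_inr]
  rw [h8] at h6
  have h9 : ∑ i : Fin s.f.length, ∑ j : Fin s.f.length, ((s.f.get i).1 : ℝ) * ((s.f.get j).1 : ℝ)
      * pval S (glue (s.f.get i).2.1 (s.f.get j).2.1 (s.f.get i).2.2 (s.f.get j).2.2) (fun _ => P)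
      = (s.f.map (fun x => (s.f.map fun y => (x.1 : ℝ)
          * (y.1 : ℝ) * pval S (glue x.2.1 y.2.1 x.2.2 y.2.2) (fun _ => P)).sum)).sum := by
    rw [← h7 (fun x => (s.f.map fun y => (x.1 : ℝ)
          * (y.1 : ℝ) * pval S (glue x.2.1 y.2.1 x.2.2 y.2.2) (fun _ => P)).sum)]
    refine Finset.sum_congr rfl fun i _ => ?_
    exact h7 (fun y => ((s.f.get i).1 : ℝ) * (y.1 : ℝ)
      * pval S (glue (s.f.get i).2.1 y.2.1 (s.f.get i).2.2 y.2.2) (fun _ => P))
  rw [h9] at h6
  have h10 : (0 : ℝ) ≤ (s.w : ℝ) := by positivity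
  have := mul_nonneg h10 h6
  linarith

/-! ### The whole certificate -/

lemma rules_sound (hP : Cha S p P) : ∀ (rs : List Rule) (v : List ℤ), v.length = tab.length →
    (rs.all fun r => okRule tab p r) = true →
    dot (xv S P tab) 0 (rs.foldl (fun v r => applyRule tab p r v) v) = dot (xv S P tab) 0 v
      ∧ (rs.foldl (fun v r => applyRule tab p r v) v).length = tab.length
  | [], v, hv, _ => ⟨rfl, hv⟩
  | r :: rs, v, hv, h => by
      simp only [List.all_cons, Bool.and_eq_true] at h
      obtain ⟨h1, h2⟩ := applyRule_sound hP r v hv h.1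
      obtain ⟨h3, h4⟩ := rules_sound hP rs _ h2 h.2
      rw [List.foldl_cons]
      exact ⟨h3.trans h1, h4⟩

lemma sqs_sound (hP : Cha S p P) : ∀ (ss : List Sq) (v : List ℤ), v.length = tab.length →
    (ss.all fun s => okSq tab p s) = true →
    dot (xv S P tab) 0 (ss.foldl (fun v s => applySq s v) v) ≤ dot (xv S P tab) 0 v
      ∧ (ss.foldl (fun v s => applySq s v) v).length = tab.length
  | [], v, hv, _ => ⟨le_rfl, hv⟩
  | s :: ss, v, hv, h => by
      simp only [List.all_cons, Bool.and_eq_true] at h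
      obtain ⟨h1, h2⟩ := applySq_sound hP s v hv h.1
      obtain ⟨h3, h4⟩ := sqs_sound hP ss _ h2 h.2
      rw [List.foldl_cons]
      exact ⟨h3.trans h1, h4⟩

/-- A certificate: the numbers of the graphs `∅`, `p·(01)`, `p·(01)+p·(23)+p·(45)` and of the
necklace, the integers `M`, `A = 15 M / p!`, `B = 30 M / p!³`, `c`, the rules and the squares. -/
def okCert (tab : List (List Ed)) (p i0 i1 i2 i3 : ℕ) (M A B c : ℤ) (rs : List Rule)
    (ss : List Sq) : Bool :=
  iso [] [] (gr tab i0)
    && iso [] (List.replicate p (0, 1)) (gr tab i1)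
    && iso [] (List.replicate p (0, 1) ++ (List.replicate p (2, 3) ++ List.replicate p (4, 5)))
        (gr tab i2)
    && iso [] (neck (p - 1)) (gr tab i3)
    && decide (i0 < tab.length) && decide (i1 < tab.length) && decide (i2 < tab.length)
    && decide (i3 < tab.length)
    && decide (A * (p.factorial : ℤ) = 15 * M) && decide (B * (p.factorial : ℤ) ^ 3 = 30 * M)
    && (rs.all fun r => okRule tab p r) && (ss.all fun s => okSq tab p s)
    && isZero (ss.foldl (fun v s => applySq s v) (rs.foldl (fun v r => applyRule tab p r v)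
      (addAt i0 M (addAt i1 (-A) (addAt i2 B (addAt i3 (-c) (List.replicate tab.length 0)))))))

lemma dot_replicate (x : ℕ → ℝ) : ∀ n k, dot x k (List.replicate n 0) = 0
  | 0, _ => rfl
  | n + 1, k => by
      rw [List.replicate_succ]
      simp only [dot]
      rw [dot_replicate x n (k + 1)]
      simp

theorem cert_sound (hP : Cha S p P) (hp : Odd p) {i0 i1 i2 i3 : ℕ} {M A B c : ℤ} {rs : List Rule}
    {ss : List Sq} (h : okCert tab p i0 i1 i2 i3 M A B c rs ss = true) :
    (c : ℝ) * W S P (neck (p - 1)) ≤ (M : ℝ) * k6 P := by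
  unfold okCert at h
  simp only [Bool.and_eq_true, decide_eq_true_eq] at h
  obtain ⟨⟨⟨⟨⟨⟨⟨⟨⟨⟨⟨⟨a0, a1⟩, a2⟩, a3⟩, b0⟩, b1⟩, b2⟩, b3⟩, cA⟩, cB⟩, hr⟩, hs⟩, hz⟩ := h
  set v0 := addAt i0 M (addAt i1 (-A) (addAt i2 B (addAt i3 (-c) (List.replicate tab.length 0))))
    with hv0
  have hl : v0.length = tab.length := by simp [hv0, length_addAt]
  obtain ⟨r1, r2⟩ := rules_sound (S := S) (P := P) hP rs v0 hl hr
  obtain ⟨s1, s2⟩ := sqs_sound (S := S) (P := P) hP ss _ r2 hs
  rw [dot_isZero _ _ _ hz, r1] at s1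
  have h1 : dot (xv S P tab) 0 v0 = (M : ℝ) * W S P [] - (A : ℝ) * W S P (List.replicate p (0, 1))
      + (B : ℝ) * W S P (List.replicate p (0, 1) ++ (List.replicate p (2, 3)
        ++ List.replicate p (4, 5))) - (c : ℝ) * W S P (neck (p - 1)) := by
    rw [W_iso a0, W_iso a1, W_iso a2, W_iso a3, hv0, dot_addAt _ _ _ _ _ (by
      simpa [length_addAt] using b0), dot_addAt _ _ _ _ _ (by
      simpa [length_addAt] using b1), dot_addAt _ _ _ _ _ (by
      simpa [length_addAt] using b2), dot_addAt _ _ _ _ _ (by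
      simpa [length_addAt] using b3), dot_replicate]
    simp only [zero_add, xv]
    push_cast
    ring
  rw [h1] at s1
  rw [k6_odd hP hp]
  have hf : (p.factorial : ℝ) ≠ 0 := by positivity
  have cA' : (A : ℝ) = M * (15 / (p.factorial : ℝ)) := by
    have : (A : ℝ) * (p.factorial : ℝ) = 15 * M := by exact_mod_cast cA
    field_simp
    linarith
  have cB' : (B : ℝ) = M * (30 / (p.factorial : ℝ) ^ 3) := by
    have : (B : ℝ) * (p.factorial : ℝ) ^ 3 = 30 * M := by exact_mod_cast cB
    field_simp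
    linarith
  rw [cA', cB'] at s1
  linarith

end Sound

end A602
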