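import Pool.Agent.Lib.MP_a60258_c3.Chaos

/-!
# Graph sums

`val S l Q`: every edge of the list `l` contracts a derivative of the two polynomials at its ends.
-/

open MeasureTheory ProbabilityTheory MvPolynomial Filter Topology

namespace A602

section General

variable {V : Type} [Fintype V] [DecidableEq V]

/-- differentiate the polynomials at both ends of the edge `e` -/
noncomputable def dE (e : V × V) (j : ℕ) (Q : V → R) : V → R :=
  fun u => if u = e.1 ∨ u = e.2 then pderiv j (Q u) else Q u

/-- expectation of the product after contraction of the edges of a list -/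
noncomputable def val (S : Finset ℕ) : List (V × V) → (V → R) → ℝ
  | [], Q => E (∏ u, Q u)
  | e :: l, Q => ∑ j ∈ S, val S l (dE e j Q)

/-- product of the expectations after contraction of the edges of a list -/
noncomputable def pval (S : Finset ℕ) : List (V × V) → (V → R) → ℝ
  | [], Q => ∏ u, E (Q u)
  | e :: l, Q => ∑ j ∈ S, pval S l (dE e j Q)

lemma dE_comm (e f : V × V) (i j : ℕ) (Q : V → R) :
    dE e i (dE f j Q) = dE f j (dE e i Q) := by
  funext u
  unfold dE
  split_ifs <;> first | rfl | exact pderiv_comm _ _ _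

lemma dE_swap (v w : V) (j : ℕ) (Q : V → R) : dE (v, w) j Q = dE (w, v) j Q := by
  funext u
  unfold dE
  simp only [or_comm]

variable {S : Finset ℕ}

lemma val_perm {l l' : List (V × V)} (h : l.Perm l') : ∀ Q, val S l Q = val S l' Q := by
  induction h with
  | nil => exact fun _ => rfl
  | cons e _ ih => exact fun Q => Finset.sum_congr rfl fun j _ => ih _
  | swap e f l =>
    intro Q
    simp only [val]
    rw [Finset.sum_comm]
    refine Finset.sum_congr rfl fun i _ => Finset.sum_congr rfl fun j _ => ?_
    rw [dE_comm]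
  | trans _ _ ih1 ih2 => exact fun Q => (ih1 Q).trans (ih2 Q)

lemma val_swap (v w : V) (l : List (V × V)) (Q : V → R) :
    val S ((v, w) :: l) Q = val S ((w, v) :: l) Q := by
  simp only [val, dE_swap v w]

/-- reversing edges -/
lemma val_flip (b : V × V → Bool) : ∀ (l : List (V × V)) (Q : V → R),
    val S (l.map fun e => bif b e then e.swap else e) Q = val S l Q
  | [], _ => rfl
  | (v, w) :: l, Q => by
      rw [List.map_cons]
      cases b (v, w)
      · exact Finset.sum_congr rfl fun j _ => val_flip b l _
      · rw [cond_true, Prod.swap_prod_mk, val_swap]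
        exact Finset.sum_congr rfl fun j _ => val_flip b l _

lemma dE_map (σ : Equiv.Perm V) (e : V × V) (j : ℕ) (Q : V → R) :
    dE (Prod.map σ σ e) j Q ∘ σ = dE e j (Q ∘ σ) := by
  funext u
  simp [dE]

/-- relabelling of the vertices -/
lemma val_map (σ : Equiv.Perm V) : ∀ (l : List (V × V)) (Q : V → R),
    val S (l.map (Prod.map σ σ)) Q = val S l (Q ∘ σ)
  | [], Q => by
      simp only [val, List.map_nil, Function.comp]
      rw [Equiv.prod_comp σ Q]
  | e :: l, Q => by
      simp only [List.map_cons, val]
      refine Finset.sum_congr rfl fun j _ => ?_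
      rw [val_map σ l, dE_map]

/-! ### Degrees -/

/-- remaining degrees -/
def rem : List (V × V) → (V → ℕ) → V → ℕ
  | [], d => d
  | e :: l, d => rem l fun u => if u = e.1 ∨ u = e.2 then d u - 1 else d u

lemma cha_dE {d : V → ℕ} {Q : V → R} (hQ : ∀ u, Cha S (d u) (Q u)) (e : V × V) (j : ℕ) (u : V) :
    Cha S (if u = e.1 ∨ u = e.2 then d u - 1 else d u) (dE e j Q u) := by
  unfold dE
  split_ifs
  · exact (hQ u).pd j
  · exact hQ u

lemma pderiv_prod (s : Finset V) (Q : V → R) (j : ℕ) :
    pderiv j (∏ u ∈ s, Q u) = ∑ w ∈ s, pderiv j (Q w) * ∏ u ∈ s.erase w, Q u := by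
  induction s using Finset.induction_on with
  | empty => simp
  | insert a s ha ih =>
    rw [Finset.prod_insert ha, Derivation.leibniz, ih, Finset.sum_insert ha,
      Finset.erase_insert ha, Finset.smul_sum, add_comm]
    congr 1
    · rw [smul_eq_mul, mul_comm]
    · refine Finset.sum_congr rfl fun w hw => ?_
      have hne : w ≠ a := fun h => ha (h ▸ hw)
      rw [Finset.erase_insert_of_ne hne.symm, Finset.prod_insert (fun h => ha (Finset.mem_of_mem_erase h))]
      simp only [smul_eq_mul]
      ring

lemma prod_dE {v w : V} (hvw : w ≠ v) (j : ℕ) (Q : V → R) :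
    ∏ u, dE (v, w) j Q u
      = pderiv j (Q v) * (pderiv j (Q w) * ∏ u ∈ (Finset.univ.erase v).erase w, Q u) := by
  rw [← Finset.mul_prod_erase _ _ (Finset.mem_univ v)]
  rw [← Finset.mul_prod_erase (Finset.univ.erase v) _ (Finset.mem_erase.mpr ⟨hvw, Finset.mem_univ w⟩)]
  have h1 : dE (v, w) j Q v = pderiv j (Q v) := by simp [dE]
  have h2 : dE (v, w) j Q w = pderiv j (Q w) := by simp [dE]
  rw [h1, h2]
  congr 2
  refine Finset.prod_congr rfl fun u hu => ?_
  have h3 := Finset.ne_of_mem_erase hu
  have h4 := Finset.ne_of_mem_erase (Finset.mem_of_mem_erase hu)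
  simp [dE, h3, h4]

/-- integration by parts at the vertex `v` -/
lemma base_rule {d : V → ℕ} {Q : V → R} (hQ : ∀ u, Cha S (d u) (Q u)) (v : V) :
    (d v : ℝ) * E (∏ u, Q u) = ∑ w ∈ Finset.univ.erase v, ∑ j ∈ S, E (∏ u, dE (v, w) j Q u) := by
  rw [← Finset.mul_prod_erase _ _ (Finset.mem_univ v), (hQ v).ibp, Finset.sum_comm]
  refine Finset.sum_congr rfl fun j _ => ?_
  rw [pderiv_prod, Finset.mul_sum, map_sum]
  refine Finset.sum_congr rfl fun w hw => ?_
  rw [prod_dE (Finset.ne_of_mem_erase hw)]

lemma val_rule' : ∀ (l : List (V × V)) {d : V → ℕ} {Q : V → R} (_ : ∀ u, Cha S (d u) (Q u)) (v : V),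
    (rem l d v : ℝ) * val S l Q = ∑ w ∈ Finset.univ.erase v, val S (l ++ [(v, w)]) Q
  | [], d, Q, hQ, v => base_rule hQ v
  | e :: l, d, Q, hQ, v => by
      simp only [rem, val, List.cons_append]
      rw [Finset.mul_sum, Finset.sum_comm]
      exact Finset.sum_congr rfl fun j _ => val_rule' l (cha_dE hQ e j) v

/-- **The expansion rule.** -/
lemma val_rule (l : List (V × V)) {d : V → ℕ} {Q : V → R} (hQ : ∀ u, Cha S (d u) (Q u)) (v : V) :
    (rem l d v : ℝ) * val S l Q = ∑ w ∈ Finset.univ.erase v, val S ((v, w) :: l) Q := by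
  rw [val_rule' l hQ v]
  exact Finset.sum_congr rfl fun w _ => val_perm (List.perm_append_singleton _ _) Q

lemma val_zero : ∀ (l : List (V × V)) {Q : V → R} (u : V), Q u = 0 → val S l Q = 0
  | [], Q, u, h => by
      simp only [val]
      rw [Finset.prod_eq_zero (Finset.mem_univ u) h, map_zero]
  | e :: l, Q, u, h => by
      simp only [val]
      refine Finset.sum_eq_zero fun j _ => val_zero l u ?_
      unfold dE
      rw [h, map_zero, ite_self]

lemma val_full' : ∀ (l : List (V × V)) {d : V → ℕ} {Q : V → R} (_ : ∀ u, Cha S (d u) (Q u))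
    (v w : V), rem l d w = 0 → val S (l ++ [(v, w)]) Q = 0
  | [], d, Q, hQ, v, w, h => by
      simp only [List.nil_append, val]
      refine Finset.sum_eq_zero fun j _ => ?_
      have h1 : dE (v, w) j Q w = 0 := by
        have h2 := hQ w
        simp only [rem] at h
        rw [h] at h2
        obtain ⟨c, hc⟩ := h2
        simp [dE, hc]
      rw [Finset.prod_eq_zero (Finset.mem_univ w) h1, map_zero]
  | e :: l, d, Q, hQ, v, w, h => by
      simp only [List.cons_append, val]
      exact Finset.sum_eq_zero fun j _ => val_full' l (cha_dE hQ e j) v w h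

lemma val_full (l : List (V × V)) {d : V → ℕ} {Q : V → R} (hQ : ∀ u, Cha S (d u) (Q u)) (v w : V)
    (h : rem l d w = 0) : val S ((v, w) :: l) Q = 0 := by
  rw [← val_full' l hQ v w h]
  exact val_perm (List.perm_append_singleton _ _).symm Q

lemma val_eq_pval : ∀ (l : List (V × V)) {d : V → ℕ} {Q : V → R} (_ : ∀ u, Cha S (d u) (Q u)),
    (∀ u, rem l d u = 0) → val S l Q = pval S l Q
  | [], d, Q, hQ, h => by
      simp only [val, pval]
      simp only [rem] at h
      have h1 : ∀ u, ∃ c, Q u = C c := fun u => by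
        have := hQ u
        rwa [h u] at this
      choose c hc using h1
      simp only [hc, E_C]
      rw [← map_prod, E_C]
  | e :: l, d, Q, hQ, h => by
      simp only [val, pval]
      exact Finset.sum_congr rfl fun j _ => val_eq_pval l (cha_dE hQ e j) h

end General

end A602
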