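import Pool.Agent.Lib.MP_a60258_c3.Graph

/-!
# Moments and sums of squares in terms of graph sums
-/

open MeasureTheory ProbabilityTheory MvPolynomial Filter Topology

set_option linter.unusedSectionVars false

namespace A602

section General

variable {V : Type} [Fintype V] [DecidableEq V] {S : Finset ℕ}

/-! ### Parity -/

lemma E_odd : ∀ (n : ℕ) (d : V → ℕ) (Q : V → R), (∀ u, Cha S (d u) (Q u)) → ∑ u, d u = n → Odd n →
    E (∏ u, Q u) = 0 := by
  intro n
  induction n using Nat.strong_induction_on with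
  | _ n ih =>
    intro d Q hQ hd hn
    obtain ⟨v, hv⟩ : ∃ v, 1 ≤ d v := by
      by_contra h
      push Not at h
      have : ∑ u, d u = 0 := Finset.sum_eq_zero fun u _ => by have := h u; omega
      rw [hd] at this
      subst this
      exact absurd hn (by decide)
    have h1 := base_rule hQ v
    have h2 : ∑ w ∈ Finset.univ.erase v, ∑ j ∈ S, E (∏ u, dE (v, w) j Q u) = 0 := by
      refine Finset.sum_eq_zero fun w hw => Finset.sum_eq_zero fun j _ => ?_
      have hwv := Finset.ne_of_mem_erase hw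
      rcases Nat.eq_zero_or_pos (d w) with h0 | h0
      · have h3 : dE (v, w) j Q w = 0 := by
          have h4 := hQ w
          rw [h0] at h4
          obtain ⟨c, hc⟩ := h4
          simp [dE, hc]
        rw [Finset.prod_eq_zero (Finset.mem_univ w) h3, map_zero]
      · have hsum : ∑ u, (if u = v ∨ u = w then d u - 1 else d u) + 2 = n := by
          rw [← hd]
          rw [← Finset.add_sum_erase _ _ (Finset.mem_univ v)]
          rw [← Finset.add_sum_erase _ d (Finset.mem_univ v)]
          rw [← Finset.add_sum_erase (Finset.univ.erase v) _ (Finset.mem_erase.mpr ⟨hwv, Finset.mem_univ w⟩)]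
          rw [← Finset.add_sum_erase (Finset.univ.erase v) d (Finset.mem_erase.mpr ⟨hwv, Finset.mem_univ w⟩)]
          have h5 : ∑ u ∈ (Finset.univ.erase v).erase w, (if u = v ∨ u = w then d u - 1 else d u)
              = ∑ u ∈ (Finset.univ.erase v).erase w, d u := by
            refine Finset.sum_congr rfl fun u hu => ?_
            have h6 := Finset.ne_of_mem_erase hu
            have h7 := Finset.ne_of_mem_erase (Finset.mem_of_mem_erase hu)
            simp [h6, h7]
          rw [h5]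
          simp only [true_or, or_true, if_true]
          omega
        refine ih (n - 2) (by omega) _ _ (cha_dE hQ (v, w) j) ?_ ?_
        · change ∑ u, (if u = v ∨ u = w then d u - 1 else d u) = n - 2
          omega
        · rcases hn with ⟨k, hk⟩
          exact ⟨k - 1, by omega⟩
    rw [h2] at h1
    have h3 : (d v : ℝ) ≠ 0 := by
      have : d v ≠ 0 := by omega
      exact_mod_cast this
    exact (mul_eq_zero.mp h1).resolve_left h3

/-! ### Splitting off a pair of vertices -/

/-- replace the polynomials at `v`, `w` by `1` -/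
noncomputable def ov (v w : V) (Q : V → R) : V → R := fun u => if u = v ∨ u = w then 1 else Q u

lemma ov_dE {v w : V} {e : V × V} (he : ¬ (e.1 = v ∨ e.1 = w) ∧ ¬ (e.2 = v ∨ e.2 = w)) (j : ℕ)
    (Q : V → R) : ov v w (dE e j Q) = dE e j (ov v w Q) := by
  funext u
  unfold ov dE
  by_cases h1 : u = v ∨ u = w
  · have h2 : ¬ (u = e.1 ∨ u = e.2) := by
      rintro (rfl | rfl)
      · exact he.1 h1
      · exact he.2 h1
    simp [h1, h2]
  · simp only [h1, if_false]

lemma prod_ov {v w : V} (hvw : w ≠ v) (Q : V → R) :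
    ∏ u, Q u = (Q v * Q w) * ∏ u, ov v w Q u := by
  have key : ∀ Q : V → R, ∏ u, Q u = Q v * (Q w * ∏ u ∈ (Finset.univ.erase v).erase w, Q u) :=
    fun Q => by
      rw [← Finset.mul_prod_erase _ _ (Finset.mem_univ v)]
      rw [← Finset.mul_prod_erase (Finset.univ.erase v) _
        (Finset.mem_erase.mpr ⟨hvw, Finset.mem_univ w⟩)]
  rw [key Q, key (ov v w Q)]
  have h1 : ov v w Q v = 1 := by simp [ov]
  have h2 : ov v w Q w = 1 := by simp [ov]
  have h3 : ∏ u ∈ (Finset.univ.erase v).erase w, ov v w Q u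
      = ∏ u ∈ (Finset.univ.erase v).erase w, Q u := by
    refine Finset.prod_congr rfl fun u hu => ?_
    have h3 := Finset.ne_of_mem_erase hu
    have h4 := Finset.ne_of_mem_erase (Finset.mem_of_mem_erase hu)
    simp [ov, h3, h4]
  rw [h1, h2, h3]
  ring

lemma val_const {v w : V} (hvw : w ≠ v) : ∀ (l : List (V × V)) (Q : V → R) (a b : ℝ),
    (∀ e ∈ l, ¬ (e.1 = v ∨ e.1 = w) ∧ ¬ (e.2 = v ∨ e.2 = w)) → Q v = C a → Q w = C b →
    val S l Q = a * b * val S l (ov v w Q)
  | [], Q, a, b, _, ha, hb => by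
      simp only [val]
      rw [prod_ov hvw, ha, hb, ← C_mul, ← smul_eq_C_mul, map_smul, smul_eq_mul]
  | e :: l, Q, a, b, h, ha, hb => by
      simp only [val]
      rw [Finset.mul_sum]
      refine Finset.sum_congr rfl fun j _ => ?_
      have he := h e List.mem_cons_self
      have hv : ¬ (v = e.1 ∨ v = e.2) := by
        rintro (h' | h')
        · exact he.1 (Or.inl h'.symm)
        · exact he.2 (Or.inl h'.symm)
      have hw : ¬ (w = e.1 ∨ w = e.2) := by
        rintro (h' | h')
        · exact he.1 (Or.inr h'.symm)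
        · exact he.2 (Or.inr h'.symm)
      rw [val_const hvw l (dE e j Q) a b (fun f hf => h f (List.mem_cons_of_mem _ hf))
        (by simp only [dE, hv, if_false, ha]) (by simp only [dE, hw, if_false, hb]), ov_dE he]

lemma val_rep {v w : V} (hvw : w ≠ v) {l : List (V × V)}
    (hl : ∀ e ∈ l, ¬ (e.1 = v ∨ e.1 = w) ∧ ¬ (e.2 = v ∨ e.2 = w)) :
    ∀ (p : ℕ) (Q : V → R), Cha S p (Q v) → Cha S p (Q w) →
    val S (List.replicate p (v, w) ++ l) Q
      = (p.factorial : ℝ) * E (Q v * Q w) * val S l (ov v w Q)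
  | 0, Q, ⟨a, ha⟩, ⟨b, hb⟩ => by
      simp only [List.replicate_zero, List.nil_append, Nat.factorial_zero]
      rw [val_const hvw l Q a b hl ha hb, ha, hb, ← C_mul, E_C]
      simp
  | p + 1, Q, hv, hw => by
      rw [List.replicate_succ, List.cons_append]
      simp only [val]
      have h1 : ∀ j, dE (v, w) j Q v = pderiv j (Q v) := fun j => by simp [dE]
      have h2 : ∀ j, dE (v, w) j Q w = pderiv j (Q w) := fun j => by simp [dE]
      have h3 : ∀ j, ov v w (dE (v, w) j Q) = ov v w Q := fun j => by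
        funext u
        unfold ov dE
        by_cases h : u = v ∨ u = w
        · simp [h]
        · simp [h]
      have h4 : ∀ j ∈ S, val S (List.replicate p (v, w) ++ l) (dE (v, w) j Q)
          = (p.factorial : ℝ) * E (pderiv j (Q v) * pderiv j (Q w)) * val S l (ov v w Q) := by
        intro j _
        rw [val_rep hvw hl p (dE (v, w) j Q) (by rw [h1]; exact hv.1 j) (by rw [h2]; exact hw.1 j),
          h1, h2, h3]
      rw [Finset.sum_congr rfl h4, ← Finset.sum_mul, ← Finset.mul_sum, ← hv.ibp,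
        Nat.factorial_succ]
      push_cast
      ring

end General

/-! ### Moments on six vertices -/

section Six

variable {S : Finset ℕ} {p : ℕ} {P : R}

/-- the graph sum of a graph on six vertices -/
noncomputable def W (S : Finset ℕ) (P : R) (l : List (Fin 6 × Fin 6)) : ℝ := val S l fun _ => P

lemma W_nil : W S P [] = E (P ^ 6) := by
  simp [W, val]

lemma W_two_four (hP : Cha S p P) : W S P (List.replicate p (0, 1))
    = (p.factorial : ℝ) * (E (P ^ 2) * E (P ^ 4)) := by
  unfold W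
  rw [← List.append_nil (List.replicate p ((0 : Fin 6), (1 : Fin 6))),
    val_rep (by decide) (by simp) p _ hP hP]
  have h : ∏ u, ov (0 : Fin 6) 1 (fun _ => P) u = P ^ 4 := by
    simp [Fin.prod_univ_six, ov]
    ring
  simp only [val]
  rw [h, ← pow_two]
  ring

lemma W_two_two_two (hP : Cha S p P) :
    W S P (List.replicate p (0, 1) ++ (List.replicate p (2, 3) ++ List.replicate p (4, 5)))
    = (p.factorial : ℝ) ^ 3 * E (P ^ 2) ^ 3 := by
  have hP1 : ∀ u : Fin 6, (u ≠ 0 ∧ u ≠ 1) → ov (0 : Fin 6) 1 (fun _ => P) u = P := by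
    intro u hu
    simp [ov, hu.1, hu.2]
  unfold W
  rw [val_rep (by decide) ?_ p _ hP hP, val_rep (by decide) ?_ p, ← List.append_nil
    (List.replicate p ((4 : Fin 6), (5 : Fin 6))), val_rep (by decide) (by simp) p]
  · have h : ∏ u, ov (4 : Fin 6) 5 (ov (2 : Fin 6) 3 (ov (0 : Fin 6) 1 (fun _ => P))) u = 1 := by
      simp [Fin.prod_univ_six, ov]
    have h2 : ov (2 : Fin 6) 3 (ov (0 : Fin 6) 1 (fun _ => P)) 4 = P := by simp [ov, Fin.ext_iff]
    have h3 : ov (2 : Fin 6) 3 (ov (0 : Fin 6) 1 (fun _ => P)) 5 = P := by simp [ov, Fin.ext_iff]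
    have h4 : ov (0 : Fin 6) 1 (fun _ => P) 2 = P := by simp [ov, Fin.ext_iff]
    have h5 : ov (0 : Fin 6) 1 (fun _ => P) 3 = P := by simp [ov, Fin.ext_iff]
    simp only [val]
    rw [h, h2, h3, h4, h5, ← C_1, E_C, ← pow_two]
    ring
  · simpa [ov, Fin.ext_iff] using hP
  · simpa [ov, Fin.ext_iff] using hP
  · simpa [ov, Fin.ext_iff] using hP
  · simpa [ov, Fin.ext_iff] using hP
  · intro e he
    rw [List.mem_replicate] at he
    rw [he.2]
    decide
  · intro e he
    rw [List.mem_append, List.mem_replicate, List.mem_replicate] at he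
    rcases he with he | he <;> rw [he.2] <;> decide

lemma E_cube_odd (hP : Cha S p P) (hp : Odd p) : E (P ^ 3) = 0 := by
  have h := E_odd (V := Fin 3) (3 * p) (fun _ => p) (fun _ => P) (fun _ => hP) (by simp)
    (by rcases hp with ⟨k, hk⟩; exact ⟨3 * k + 1, by omega⟩)
  simpa using h

/-- the sixth cumulant in terms of graph sums, odd order -/
lemma k6_odd (hP : Cha S p P) (hp : Odd p) :
    k6 P = W S P [] - 15 / (p.factorial : ℝ) * W S P (List.replicate p (0, 1))
      + 30 / (p.factorial : ℝ) ^ 3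
        * W S P (List.replicate p (0, 1) ++ (List.replicate p (2, 3) ++ List.replicate p (4, 5))) := by
  have hf : (p.factorial : ℝ) ≠ 0 := by positivity
  rw [k6, E_cube_odd hP hp, W_nil, W_two_four hP, W_two_two_two hP]
  field_simp
  ring

/-! ### The necklace -/

/-- the necklace -/
def neck (q : ℕ) : List (Fin 6 × Fin 6) := (1, 2) :: (3, 4) :: (5, 0) ::
  (List.replicate q (0, 1) ++ (List.replicate q (2, 3) ++ List.replicate q (4, 5)))

lemma E_sq_nonneg (Q : R) : 0 ≤ E (Q ^ 2) := E_nonneg fun ω => by rw [map_pow]; exact sq_nonneg _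

lemma trace_cube_ge (S : Finset ℕ) (A : ℕ → R) {i : ℕ} (hi : i ∈ S) :
    E (A i ^ 2) ^ 3
      ≤ ∑ a ∈ S, ∑ b ∈ S, ∑ c ∈ S, E (A c * A a) * E (A a * A b) * E (A b * A c) := by
  set g : ℕ → ℕ → ℝ := fun a b => E (A a * A b) with hg
  have gc : ∀ a b, g a b = g b a := fun a b => by rw [hg]; simp only []; rw [mul_comm]
  -- rows
  have hrow : ∀ a, ∑ b ∈ S, ∑ c ∈ S, g c a * g a b * g b c
      = E ((∑ b ∈ S, (g a b) • A b) ^ 2) := by
    intro a
    rw [pow_two, Finset.sum_mul_sum, map_sum]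
    refine Finset.sum_congr rfl fun b _ => ?_
    rw [map_sum]
    refine Finset.sum_congr rfl fun c _ => ?_
    rw [smul_mul_smul_comm, map_smul, smul_eq_mul, gc c a]
    ring
  have hnn : ∀ a, 0 ≤ ∑ b ∈ S, ∑ c ∈ S, g c a * g a b * g b c := fun a => by
    rw [hrow]; exact E_sq_nonneg _
  have h1 : ∑ b ∈ S, ∑ c ∈ S, g c i * g i b * g b c
      ≤ ∑ a ∈ S, ∑ b ∈ S, ∑ c ∈ S, g c a * g a b * g b c :=
    Finset.single_le_sum (f := fun a => ∑ b ∈ S, ∑ c ∈ S, g c a * g a b * g b c)
      (fun a _ => hnn a) hi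
  refine le_trans ?_ h1
  rw [hrow]
  have hgi : g i i = E (A i ^ 2) := by rw [hg]; simp only []; rw [pow_two]
  have h0 : 0 ≤ g i i := by rw [hgi]; exact E_sq_nonneg _
  have h2 := E_cauchy (∑ b ∈ S, (g i b) • A b) (A i)
  have h3 : E ((∑ b ∈ S, (g i b) • A b) * A i) = ∑ b ∈ S, g i b ^ 2 := by
    rw [Finset.sum_mul, map_sum]
    refine Finset.sum_congr rfl fun b _ => ?_
    rw [smul_mul_assoc, map_smul, smul_eq_mul]
    have : E (A b * A i) = g i b := gc b i
    rw [this, pow_two]
  have h4 : g i i ^ 2 ≤ ∑ b ∈ S, g i b ^ 2 :=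
    Finset.single_le_sum (f := fun b => g i b ^ 2) (fun b _ => sq_nonneg _) hi
  rw [h3, ← hgi] at h2
  rw [← hgi]
  set y := E ((∑ b ∈ S, (g i b) • A b) ^ 2) with hy
  have hy0 : 0 ≤ y := E_sq_nonneg _
  rcases h0.eq_or_lt with h5 | h5
  · rw [← h5]; simpa using hy0
  · have h6 : (g i i ^ 2) ^ 2 ≤ (∑ b ∈ S, g i b ^ 2) ^ 2 := pow_le_pow_left₀ (sq_nonneg _) h4 2
    have h7 : g i i ^ 3 * g i i ≤ y * g i i := by nlinarith
    exact le_of_mul_le_mul_right h7 h5

lemma W_neck_ge (hP : Cha S (p + 1) P) (i : ℕ) :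
    (p.factorial : ℝ) ^ 3 * E (pderiv i P ^ 2) ^ 3 ≤ W S P (neck p) := by
  have h1 : W S P (neck p) = (p.factorial : ℝ) ^ 3 * ∑ a ∈ S, ∑ b ∈ S, ∑ c ∈ S,
      E (pderiv c P * pderiv a P) * E (pderiv a P * pderiv b P) * E (pderiv b P * pderiv c P) := by
    unfold W neck
    simp only [val]
    rw [Finset.mul_sum]
    refine Finset.sum_congr rfl fun a _ => ?_
    rw [Finset.mul_sum]
    refine Finset.sum_congr rfl fun b _ => ?_
    rw [Finset.mul_sum]
    refine Finset.sum_congr rfl fun c _ => ?_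
    have e0 : dE (5, 0) c (dE (3, 4) b (dE (1, 2) a fun _ => P)) (0 : Fin 6) = pderiv c P := by
      simp [dE, Fin.ext_iff]
    have e1 : dE (5, 0) c (dE (3, 4) b (dE (1, 2) a fun _ => P)) (1 : Fin 6) = pderiv a P := by
      simp [dE, Fin.ext_iff]
    have e2 : dE (5, 0) c (dE (3, 4) b (dE (1, 2) a fun _ => P)) (2 : Fin 6) = pderiv a P := by
      simp [dE, Fin.ext_iff]
    have e3 : dE (5, 0) c (dE (3, 4) b (dE (1, 2) a fun _ => P)) (3 : Fin 6) = pderiv b P := by
      simp [dE, Fin.ext_iff]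
    have e4 : dE (5, 0) c (dE (3, 4) b (dE (1, 2) a fun _ => P)) (4 : Fin 6) = pderiv b P := by
      simp [dE, Fin.ext_iff]
    have e5 : dE (5, 0) c (dE (3, 4) b (dE (1, 2) a fun _ => P)) (5 : Fin 6) = pderiv c P := by
      simp [dE, Fin.ext_iff]
    set Q : Fin 6 → R := dE (5, 0) c (dE (3, 4) b (dE (1, 2) a fun _ => P)) with hQ
    have f2 : ov (0 : Fin 6) 1 Q 2 = pderiv a P := by simp [ov, Fin.ext_iff, e2]
    have f3 : ov (0 : Fin 6) 1 Q 3 = pderiv b P := by simp [ov, Fin.ext_iff, e3]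
    have f4 : ov (2 : Fin 6) 3 (ov (0 : Fin 6) 1 Q) 4 = pderiv b P := by
      simp [ov, Fin.ext_iff, e4]
    have f5 : ov (2 : Fin 6) 3 (ov (0 : Fin 6) 1 Q) 5 = pderiv c P := by
      simp [ov, Fin.ext_iff, e5]
    rw [val_rep (by decide) ?_ p _ (by rw [e0]; exact hP.1 c) (by rw [e1]; exact hP.1 a),
      val_rep (by decide) ?_ p _ (by rw [f2]; exact hP.1 a) (by rw [f3]; exact hP.1 b),
      ← List.append_nil (List.replicate p ((4 : Fin 6), (5 : Fin 6))),
      val_rep (by decide) (by simp) p _ (by rw [f4]; exact hP.1 b) (by rw [f5]; exact hP.1 c)]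
    · have h : ∏ u, ov (4 : Fin 6) 5 (ov (2 : Fin 6) 3 (ov (0 : Fin 6) 1 Q)) u = 1 := by
        simp [Fin.prod_univ_six, ov]
      simp only [val]
      rw [h, f2, f3, f4, f5, e0, e1, ← C_1, E_C]
      ring
    · intro e he
      rw [List.mem_replicate] at he
      rw [he.2]
      decide
    · intro e he
      rw [List.mem_append, List.mem_replicate, List.mem_replicate] at he
      rcases he with he | he <;> rw [he.2] <;> decide
  rw [h1]
  refine mul_le_mul_of_nonneg_left ?_ (by positivity)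
  by_cases hi : i ∈ S
  · exact trace_cube_ge S (fun a => pderiv a P) hi
  · rw [hP.2.1 i hi]
    have h2 : E ((0 : R) ^ 2) ^ 3 = 0 := by simp
    rw [h2]
    have h3 : 0 ≤ ∑ a ∈ S, E ((∑ b ∈ S, (E (pderiv a P * pderiv b P)) • pderiv b P) ^ 2) :=
      Finset.sum_nonneg fun a _ => E_sq_nonneg _
    refine h3.trans (le_of_eq ?_)
    refine Finset.sum_congr rfl fun a _ => ?_
    rw [pow_two, Finset.sum_mul_sum, map_sum]
    refine Finset.sum_congr rfl fun b _ => ?_
    rw [map_sum]
    refine Finset.sum_congr rfl fun c _ => ?_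
    rw [smul_mul_smul_comm, map_smul, smul_eq_mul, mul_comm (pderiv c P) (pderiv a P)]
    ring

end Six

end A602
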