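import Pool.Agent.Lib.MP_a60258_c3.Six

/-!
# Sums of squares of graph sums, and a checker for linear relations between graph sums
-/

open MeasureTheory ProbabilityTheory MvPolynomial Filter Topology

set_option linter.unusedSectionVars false

namespace A602

/-! ### Gluing two graphs on three vertices -/

/-- the left copy of `Fin 3` in `Fin 6` -/
def inl (u : Fin 3) : Fin 6 := Fin.castAdd 3 u

/-- the right copy of `Fin 3` in `Fin 6` -/
def inr (u : Fin 3) : Fin 6 := Fin.natAdd 3 u

/-- glue two graphs along their open legs -/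
def glue (l l' : List (Fin 3)) (L L' : List (Fin 3 × Fin 3)) : List (Fin 6 × Fin 6) :=
  List.zipWith (fun a b => (inl a, inr b)) l l'
    ++ (L.map (Prod.map inl inl) ++ L'.map (Prod.map inr inr))

/-- two triples of polynomials -/
noncomputable def app (Q Q' : Fin 3 → R) : Fin 6 → R := Fin.append Q Q'

/-- differentiate the polynomial at `a` -/
noncomputable def dv (a : Fin 3) (j : ℕ) (Q : Fin 3 → R) : Fin 3 → R :=
  fun u => if u = a then pderiv j (Q u) else Q u

lemma app_inl (Q Q' : Fin 3 → R) (u : Fin 3) : app Q Q' (inl u) = Q u := Fin.append_left _ _ _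

lemma app_inr (Q Q' : Fin 3 → R) (u : Fin 3) : app Q Q' (inr u) = Q' u := Fin.append_right _ _ _

lemma fin6_ext {f g : Fin 6 → R} (h1 : ∀ u, f (inl u) = g (inl u)) (h2 : ∀ u, f (inr u) = g (inr u)) :
    f = g := by
  funext u
  refine Fin.addCases (m := 3) (n := 3) (motive := fun u => f u = g u) h1 h2 u

lemma inl_inj (a b : Fin 3) : inl a = inl b ↔ a = b := by revert a b; decide

lemma inr_inj (a b : Fin 3) : inr a = inr b ↔ a = b := by revert a b; decide

lemma inl_ne_inr (a b : Fin 3) : inl a ≠ inr b := by revert a b; decide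

lemma dE_cross (a b : Fin 3) (j : ℕ) (Q Q' : Fin 3 → R) :
    dE (inl a, inr b) j (app Q Q') = app (dv a j Q) (dv b j Q') := by
  refine fin6_ext (fun u => ?_) fun u => ?_
  · rw [app_inl]
    simp only [dE, dv, inl_inj, app_inl, inl_ne_inr, or_false]
  · rw [app_inr]
    simp only [dE, dv, inr_inj, app_inr, (inl_ne_inr _ _).symm, false_or]

lemma dE_left (e : Fin 3 × Fin 3) (j : ℕ) (Q Q' : Fin 3 → R) :
    dE (Prod.map inl inl e) j (app Q Q') = app (dE e j Q) Q' := by
  refine fin6_ext (fun u => ?_) fun u => ?_
  · rw [app_inl]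
    simp only [dE, inl_inj, app_inl, Prod.map_fst, Prod.map_snd]
  · rw [app_inr]
    simp only [dE, app_inr, (inl_ne_inr _ _).symm, Prod.map_fst, Prod.map_snd, or_false, if_false]

lemma dE_right (e : Fin 3 × Fin 3) (j : ℕ) (Q Q' : Fin 3 → R) :
    dE (Prod.map inr inr e) j (app Q Q') = app Q (dE e j Q') := by
  refine fin6_ext (fun u => ?_) fun u => ?_
  · rw [app_inl]
    simp only [dE, app_inl, inl_ne_inr, Prod.map_fst, Prod.map_snd, or_false, if_false]
  · rw [app_inr]
    simp only [dE, app_inr, inr_inj, Prod.map_fst, Prod.map_snd]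

variable {S : Finset ℕ}

lemma pval_right : ∀ (L' : List (Fin 3 × Fin 3)) (Q Q' : Fin 3 → R),
    pval S (L'.map (Prod.map inr inr)) (app Q Q') = (∏ u, E (Q u)) * pval S L' Q'
  | [], Q, Q' => by
      simp only [List.map_nil, pval]
      rw [show (∏ u : Fin 6, E (app Q Q' u)) = ∏ u : Fin (3 + 3), E (app Q Q' u) from rfl,
        Fin.prod_univ_add]
      congr 1
  | e :: L', Q, Q' => by
      simp only [List.map_cons, pval]
      rw [Finset.mul_sum]
      exact Finset.sum_congr rfl fun j _ => by rw [dE_right, pval_right]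

lemma pval_left : ∀ (L L' : List (Fin 3 × Fin 3)) (Q Q' : Fin 3 → R),
    pval S (L.map (Prod.map inl inl) ++ L'.map (Prod.map inr inr)) (app Q Q')
      = pval S L Q * pval S L' Q'
  | [], L', Q, Q' => pval_right L' Q Q'
  | e :: L, L', Q, Q' => by
      simp only [List.map_cons, List.cons_append, pval]
      rw [Finset.sum_mul]
      exact Finset.sum_congr rfl fun j _ => by rw [dE_left, pval_left]

/-- reflection positivity of graph sums -/
lemma sos_pval {ι : Type} [Fintype ι] (L : ι → List (Fin 3 × Fin 3)) (c : ι → ℝ) :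
    ∀ (k : ℕ) (l : ι → List (Fin 3)) (Q : ι → Fin 3 → R), (∀ s, (l s).length = k) →
    0 ≤ ∑ s, ∑ t, c s * c t * pval S (glue (l s) (l t) (L s) (L t)) (app (Q s) (Q t))
  | 0, l, Q, hl => by
      have h0 : ∀ s, l s = [] := fun s => List.length_eq_zero_iff.mp (hl s)
      have h1 : ∑ s, ∑ t, c s * c t * pval S (glue (l s) (l t) (L s) (L t)) (app (Q s) (Q t))
          = (∑ s, c s * pval S (L s) (Q s)) ^ 2 := by
        rw [pow_two, Finset.sum_mul_sum]
        refine Finset.sum_congr rfl fun s _ => Finset.sum_congr rfl fun t _ => ?_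
        rw [h0, h0, glue, List.zipWith_nil_left, List.nil_append, pval_left]
        ring
      rw [h1]
      exact sq_nonneg _
  | k + 1, l, Q, hl => by
      have h0 : ∀ s, ∃ a m, l s = a :: m ∧ m.length = k := fun s => by
        match h : l s with
        | [] => have := hl s; rw [h] at this; simp at this
        | a :: m => exact ⟨a, m, rfl, by have := hl s; rw [h] at this; simpa using this⟩
      choose a m ham hm using h0
      have h1 : ∑ s, ∑ t, c s * c t * pval S (glue (l s) (l t) (L s) (L t)) (app (Q s) (Q t))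
          = ∑ j ∈ S, ∑ s, ∑ t, c s * c t
            * pval S (glue (m s) (m t) (L s) (L t)) (app (dv (a s) j (Q s)) (dv (a t) j (Q t))) := by
        conv_rhs => rw [Finset.sum_comm]
        refine Finset.sum_congr rfl fun s _ => ?_
        conv_rhs => rw [Finset.sum_comm]
        refine Finset.sum_congr rfl fun t _ => ?_
        rw [← Finset.mul_sum, ham, ham]
        congr 1
        rw [glue, List.zipWith_cons_cons, List.cons_append, pval]
        exact Finset.sum_congr rfl fun j _ => by rw [dE_cross]; rfl
      rw [h1]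
      exact Finset.sum_nonneg fun j _ => sos_pval L c k m _ hm

/-! ### Isomorphic graphs -/

/-- edges of a graph on six vertices -/
abbrev Ed := Fin 6 × Fin 6

/-- orient an edge -/
def nrmE (e : Ed) : Ed := bif decide (e.2 < e.1) then e.swap else e

/-- product of transpositions -/
def perms : List Ed → Equiv.Perm (Fin 6)
  | [] => Equiv.refl _
  | e :: s => (perms s).trans (Equiv.swap e.1 e.2)

/-- the graph `l` relabelled by the transpositions of `s` is the graph `l'` -/
def iso (s l l' : List Ed) : Bool := (l.map fun e => nrmE (Prod.map (perms s) (perms s) e)).isPerm l'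

lemma W_iso {P : R} {s l l' : List Ed} (h : iso s l l' = true) : W S P l = W S P l' := by
  unfold iso at h
  rw [List.isPerm_iff] at h
  unfold W
  rw [← val_perm h]
  have h1 : (l.map fun e => nrmE (Prod.map (perms s) (perms s) e))
      = (l.map (Prod.map (perms s) (perms s))).map
        (fun e => bif decide (e.2 < e.1) then e.swap else e) := by
    rw [List.map_map]; rfl
  rw [h1, val_flip (fun e => decide (e.2 < e.1)), val_map]
  rfl

/-! ### Formal linear combinations -/

/-- evaluate a formal combination -/
noncomputable def dot (x : ℕ → ℝ) : ℕ → List ℤ → ℝ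
  | _, [] => 0
  | k, a :: v => (a : ℝ) * x k + dot x (k + 1) v

/-- add `a` at position `i` -/
def addAt : ℕ → ℤ → List ℤ → List ℤ
  | _, _, [] => []
  | 0, a, b :: v => (a + b) :: v
  | i + 1, a, b :: v => b :: addAt i a v

lemma dot_addAt (x : ℕ → ℝ) : ∀ (v : List ℤ) (i k : ℕ) (a : ℤ), i < v.length →
    dot x k (addAt i a v) = (a : ℝ) * x (k + i) + dot x k v
  | [], i, _, _, h => absurd h (by simp)
  | b :: v, 0, k, a, _ => by
      simp only [addAt, dot, add_zero]
      push_cast
      ring
  | b :: v, i + 1, k, a, h => by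
      simp only [addAt, dot]
      rw [dot_addAt x v i (k + 1) a (by simpa using h)]
      rw [show k + 1 + i = k + (i + 1) by ring]
      ring

lemma length_addAt : ∀ (v : List ℤ) (i : ℕ) (a : ℤ), (addAt i a v).length = v.length
  | [], _, _ => by simp [addAt]
  | _ :: _, 0, _ => by simp [addAt]
  | _ :: v, i + 1, a => by simp [addAt, length_addAt v i a]

/-- all coefficients vanish -/
def isZero (v : List ℤ) : Bool := v.all fun a => a == 0

lemma dot_isZero (x : ℕ → ℝ) : ∀ (v : List ℤ) (k : ℕ), isZero v = true → dot x k v = 0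
  | [], _, _ => rfl
  | a :: v, k, h => by
      simp only [isZero, List.all_cons, Bool.and_eq_true, beq_iff_eq] at h
      simp only [dot]
      rw [h.1, dot_isZero x v (k + 1) h.2]
      simp

end A602
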